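import Pool.Agent.Lib_helper2.EFD.Defs

/-! Block CD: the catch-up lemma of the greedy distribution to two bundles. -/

namespace Pool.Agent.EFD
open Pool.Agent.PTm Pool.Agent.EFX3

theorem cd_tmin (a : Fin 3) (P : Part) :
    (tmin a 2 P = 0 ∧ val a (P 0) ≤ val a (P 1)) ∨
      (tmin a 2 P = 1 ∧ val a (P 1) ≤ val a (P 0)) := by
  unfold tmin
  rw [if_neg (by decide), if_neg (by decide)]
  by_cases h : val a (P 0) ≤ val a (P 1)
  · left
    simp [h]
  · right
    simp only [h, decide_false, Bool.false_eq_true, if_false, true_and]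
    omega

/-- the two states: caught up, or still behind -/
def cdS (a : Fin 3) (M : ℕ) (X Y T : List Good) : Prop :=
  (ok a X Y = true ∧ ok a Y X = true ∧ val a X ≤ val a Y + M ∧ val a Y ≤ val a X + M) ∨
  (val a X ≤ val a Y + val a T ∧ val a Y ≤ val a X + val a T)

theorem cd_symm {a : Fin 3} {M : ℕ} {X Y T : List Good} (h : cdS a M X Y T) :
    cdS a M Y X T := by
  rcases h with ⟨h1, h2, h3, h4⟩ | ⟨h1, h2⟩
  · exact Or.inl ⟨h2, h1, h4, h3⟩
  · exact Or.inr ⟨h2, h1⟩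

theorem cd_step {a : Fin 3} {M : ℕ} {X Y T : List Good} {g : Good} (hXY : val a X ≤ val a Y)
    (hg : ∀ h ∈ X, g.2 a ≤ h.2 a) (hgM : g.2 a ≤ M) (h : cdS a M X Y (g :: T)) :
    cdS a M (g :: X) Y T := by
  have hok : ok a Y (g :: X) = true := by
    rw [ok_iff]
    intro h hh
    rw [val_cons]
    rcases List.mem_cons.mp hh with h1 | h1
    · rw [h1]; omega
    · have := hg h h1; omega
  rcases h with ⟨h1, h2, h3, h4⟩ | ⟨h1, h2⟩
  · left
    refine ⟨ok_mono h1 (by rw [val_cons]; omega), hok, by rw [val_cons]; omega,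
      by rw [val_cons]; omega⟩
  · rw [val_cons] at h2
    by_cases h5 : g.2 a + val a X ≤ val a Y
    · right
      rw [val_cons]
      exact ⟨by omega, by omega⟩
    · left
      exact ⟨ok_of_le (by rw [val_cons]; omega), hok, by rw [val_cons]; omega,
        by rw [val_cons]; omega⟩

theorem cd_main (a : Fin 3) (M : ℕ) : ∀ (T : List Good) (P : Part),
    (T.Pairwise fun g h => h.2 a ≤ g.2 a) →
    (∀ j : Fin 3, j ≠ 2 → ∀ g ∈ P j, ∀ h ∈ T, h.2 a ≤ g.2 a) → (∀ g ∈ T, g.2 a ≤ M) →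
    cdS a M (P 0) (P 1) T → cdS a M (lpt2 a 2 P T 0) (lpt2 a 2 P T 1) [] := by
  intro T
  induction T with
  | nil => intro P _ _ _ h; exact h
  | cons g T ih =>
    intro P hT hP hM h
    have hT2 := List.pairwise_cons.mp hT
    have hgP : ∀ j : Fin 3, j ≠ 2 → ∀ h ∈ P j, g.2 a ≤ h.2 a :=
      fun j hj h hh => hP j hj h hh g List.mem_cons_self
    have hnew : ∀ i : Fin 3, ∀ j : Fin 3, j ≠ 2 → ∀ x ∈ put P i g j, ∀ h ∈ T,
        h.2 a ≤ x.2 a := by
      intro i j hj x hx h hh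
      by_cases hij : j = i
      · subst hij
        rw [put_same] at hx
        rcases List.mem_cons.mp hx with h1 | h1
        · rw [h1]; exact hT2.1 h hh
        · exact hP j hj x h1 h (List.mem_cons_of_mem _ hh)
      · rw [put_ne P g hij] at hx
        exact hP j hj x hx h (List.mem_cons_of_mem _ hh)
    change cdS a M (lpt2 a 2 (put P (tmin a 2 P) g) T 0) (lpt2 a 2 (put P (tmin a 2 P) g) T 1) []
    refine ih _ hT2.2 (hnew _) (fun x hx => hM x (List.mem_cons_of_mem _ hx)) ?_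
    rcases cd_tmin a P with ⟨h1, h2⟩ | ⟨h1, h2⟩
    · rw [h1, put_same, put_ne P g (by decide)]
      exact cd_step h2 (hgP 0 (by decide)) (hM g List.mem_cons_self) h
    · rw [h1, put_same, put_ne P g (by decide)]
      exact cd_symm (cd_step h2 (hgP 1 (by decide)) (hM g List.mem_cons_self) (cd_symm h))

theorem cd_split (a : Fin 3) : ∀ (T : List Good) (P : Part), lpt2 a 2 P T 2 = P 2 ∧
    ∃ T0 T1 : List Good, (T0 ++ T1).Perm T ∧ lpt2 a 2 P T 0 = T0 ++ P 0 ∧
      lpt2 a 2 P T 1 = T1 ++ P 1 := by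
  intro T
  induction T with
  | nil => intro P; exact ⟨rfl, [], [], List.Perm.refl _, rfl, rfl⟩
  | cons g T ih =>
    intro P
    obtain ⟨h2, T0, T1, hp, h0, h1⟩ := ih (put P (tmin a 2 P) g)
    change lpt2 a 2 (put P (tmin a 2 P) g) T 2 = P 2 ∧
      ∃ T0 T1 : List Good, (T0 ++ T1).Perm (g :: T) ∧
        lpt2 a 2 (put P (tmin a 2 P) g) T 0 = T0 ++ P 0 ∧
        lpt2 a 2 (put P (tmin a 2 P) g) T 1 = T1 ++ P 1
    rw [h2, h0, h1]
    rcases cd_tmin a P with ⟨h3, _⟩ | ⟨h3, _⟩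
    · rw [h3, put_same, put_ne P g (by decide), put_ne P g (by decide)]
      refine ⟨rfl, T0 ++ [g], T1, ?_, by simp, rfl⟩
      have h4 : (T0 ++ [g] ++ T1).Perm (g :: (T0 ++ T1)) := by
        rw [List.append_assoc]
        exact List.perm_middle
      exact h4.trans (hp.cons g)
    · rw [h3, put_same, put_ne P g (by decide), put_ne P g (by decide)]
      refine ⟨rfl, T0, T1 ++ [g], ?_, rfl, by simp⟩
      have h4 : (T0 ++ (T1 ++ [g])).Perm (g :: (T0 ++ T1)) := by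
        rw [← List.append_assoc]
        exact List.perm_append_singleton _ _
      exact h4.trans (hp.cons g)

/-- greedy distribution of a sorted list to the bundles 0 and 1 (catch-up lemma) -/
theorem lpt2_spec_pr (a : Fin 3) (P : Part) (T : List Good)
    (hT : T.Pairwise fun g h => h.2 a ≤ g.2 a)
    (hP : ∀ j : Fin 3, j ≠ 2 → ∀ g ∈ P j, ∀ h ∈ T, h.2 a ≤ g.2 a)
    (hs : (P 0 = [] ∧ P 1 = []) ∨
      (val a (P 0) ≤ val a (P 1) + val a T ∧ val a (P 1) ≤ val a (P 0) + val a T))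
    (M : ℕ) (hM : ∀ j : Fin 3, j ≠ 2 → ∀ g ∈ P j, g.2 a ≤ M) (hMT : ∀ g ∈ T, g.2 a ≤ M) :
    lpt2 a 2 P T 2 = P 2 ∧
    ok a (lpt2 a 2 P T 0) (lpt2 a 2 P T 1) = true ∧
    ok a (lpt2 a 2 P T 1) (lpt2 a 2 P T 0) = true ∧
    val a (lpt2 a 2 P T 0) ≤ val a (lpt2 a 2 P T 1) + M ∧
    val a (lpt2 a 2 P T 1) ≤ val a (lpt2 a 2 P T 0) + M ∧
    ∃ T0 T1 : List Good, (T0 ++ T1).Perm T ∧ lpt2 a 2 P T 0 = T0 ++ P 0 ∧
      lpt2 a 2 P T 1 = T1 ++ P 1 := by
  have _ := hM
  have h0 : cdS a M (P 0) (P 1) T := by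
    rcases hs with ⟨h1, h2⟩ | h
    · left
      rw [h1, h2]
      exact ⟨ok_of_le le_rfl, ok_of_le le_rfl, by omega, by omega⟩
    · exact Or.inr h
  obtain ⟨h2, hsp⟩ := cd_split a T P
  refine ⟨h2, ?_⟩
  rcases cd_main a M T P hT hP hMT h0 with ⟨h3, h4, h5, h6⟩ | ⟨h3, h4⟩
  · exact ⟨h3, h4, h5, h6, hsp⟩
  · rw [val_nil] at h3 h4
    exact ⟨ok_of_le (by omega), ok_of_le (by omega), by omega, by omega, hsp⟩

theorem dump_spec_pr (P : Part) (N : List Good) :
    dump P N 0 = P 0 ∧ dump P N 1 = P 1 ∧ dump P N 2 = N.reverse ++ P 2 := by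
  induction N generalizing P with
  | nil => exact ⟨rfl, rfl, rfl⟩
  | cons g N ih =>
    obtain ⟨h0, h1, h2⟩ := ih (put P 2 g)
    change dump (put P 2 g) N 0 = P 0 ∧ dump (put P 2 g) N 1 = P 1 ∧
      dump (put P 2 g) N 2 = (g :: N).reverse ++ P 2
    rw [h0, h1, h2, put_same, put_ne P g (by decide), put_ne P g (by decide)]
    simp

end Pool.Agent.EFD
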