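import Pool.Agent.Lib_helper2.EFD.Defs

/-! Block PC: `dump` and `tryP` are polynomial time. -/

namespace Pool.Agent.EFD
open Pool.Agent.PTm Pool.Agent.EFX3

variable {γ : Type} [ToD γ]

theorem sz_dump_pr (P : Part) (N : List Good) : sz (dump P N) + 1 = sz P + sz N := by
  rw [dump]
  induction N generalizing P with
  | nil => simp
  | cons g N ih => rw [List.foldl_cons, ih, sz_put, sz_cons]; ring

theorem pc_dump0 : PTime (fun p : Part × List Good => dump p.1 p.2) := by
  refine PTime.foldl_add (γ := Part × List Good) (α := Good) (β := Part)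
    (l := fun p => p.2) (i := fun p => p.1) (s := fun _ Q g => put Q 2 g)
    pt_snd pt_fst ?_ (Polynomial.X + 1) ?_
  · have h1 : PTime (fun p : (Part × List Good) × Part × Good => p.2.1) := PTime.fst pt_snd
    have h2 : PTime (fun p : (Part × List Good) × Part × Good => p.2.2) := PTime.snd pt_snd
    exact pt_put h1 (PTime.const 2) h2
  · intro x b g hg
    rw [sz_put]
    have h1 := sz_le_of_mem hg
    have h2 : sz x = sz x.1 + sz x.2 + 1 := rfl
    simp only [Polynomial.eval_add, Polynomial.eval_X, Polynomial.eval_one]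
    omega

theorem pt_dump_pr {P : γ → Part} {N : γ → List Good} (hP : PTime P) (hN : PTime N) :
    PTime (fun c => dump (P c) (N c)) :=
  PTime.comp pc_dump0 (PTime.pair hP hN)

/-- the size invariant -/
def pcInv (K M : ℕ) (s : List Good × Part × Part) : Prop :=
  sz s.2.1 + sz s.1 ≤ K ∧ sz s.2.2 ≤ M

theorem pc_step (a : Fin 3) (K M : ℕ) (hKM : K ≤ M) (s : List Good × Part × Part)
    (h : pcInv K M s) : pcInv K M (tstep a s) := by
  obtain ⟨N0, P, acc⟩ := s
  obtain ⟨h1, h2⟩ := h
  cases N0 with
  | nil => exact ⟨h1, h2⟩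
  | cons g N =>
    change sz P + sz (g :: N) ≤ K at h1
    change sz acc ≤ M at h2
    rw [sz_cons] at h1
    change pcInv K M (N, put P (tmin a 2 P) g, upd acc (dump (put P (tmin a 2 P) g) N))
    have h3 := sz_put P (tmin a 2 P) g
    have h4 := sz_dump_pr (put P (tmin a 2 P) g) N
    refine ⟨?_, (sz_upd _ _).trans (max_le h2 ?_)⟩
    · change sz (put P (tmin a 2 P) g) + sz N ≤ K
      omega
    · omega

theorem pc_fold (a : Fin 3) (K M : ℕ) (hKM : K ≤ M) (N' : List Good)
    (s : List Good × Part × Part) (h : pcInv K M s) :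
    pcInv K M (N'.foldl (fun s (_ : Good) => tstep a s) s) := by
  induction N' generalizing s with
  | nil => exact h
  | cons g N' ih => exact ih _ (pc_step a K M hKM s h)

theorem pc_init (N : List Good) (P acc : Part) :
    pcInv (sz P + sz N) (max (sz acc) (sz P + sz N)) (N, P, upd acc (dump P N)) := by
  have h := sz_dump_pr P N
  refine ⟨le_rfl, (sz_upd _ _).trans (max_le (le_max_left _ _) (le_trans ?_ (le_max_right _ _)))⟩
  omega

theorem sz_tryP_pr (a : Fin 3) (N : List Good) (P acc : Part) :
    sz (tryP a N P acc) ≤ max (sz acc) (sz P + sz N) :=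
  (pc_fold a _ _ (le_max_right _ _) N _ (pc_init N P acc)).2

theorem pc_tstep (a : Fin 3) : PTime (fun s : List Good × Part × Part => tstep a s) := by
  refine PTime.lcase (γ := List Good × Part × Part) (α := Good) (β := List Good × Part × Part)
    (l := fun s => s.1) (n := fun s => s)
    (c := fun s g N => (N, put s.2.1 (tmin a 2 s.2.1) g,
      upd s.2.2 (dump (put s.2.1 (tmin a 2 s.2.1) g) N))) pt_fst PTime.id ?_
  have h0 : PTime (fun p : (List Good × Part × Part) × Good × List Good => p.1) := pt_fst
  have hP : PTime (fun p : (List Good × Part × Part) × Good × List Good => p.1.2.1) :=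
    PTime.fst (PTime.snd h0)
  have hA : PTime (fun p : (List Good × Part × Part) × Good × List Good => p.1.2.2) :=
    PTime.snd (PTime.snd h0)
  have hg : PTime (fun p : (List Good × Part × Part) × Good × List Good => p.2.1) :=
    PTime.fst pt_snd
  have hN : PTime (fun p : (List Good × Part × Part) × Good × List Good => p.2.2) :=
    PTime.snd pt_snd
  have hQ := pt_put hP (pt_tmin a (PTime.const 2) hP) hg
  exact PTime.pair hN (PTime.pair hQ (pt_upd hA (pt_dump_pr hQ hN)))

theorem pc_tryP0 (a : Fin 3) :
    PTime (fun p : List Good × Part × Part => tryP a p.1 p.2.1 p.2.2) := by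
  have h : PTime (fun p : List Good × Part × Part =>
      p.1.foldl (fun s (_ : Good) => tstep a s) (p.1, p.2.1, upd p.2.2 (dump p.2.1 p.1))) := by
    have h1 : PTime (fun p : List Good × Part × Part => p.1) := pt_fst
    have h2 : PTime (fun p : List Good × Part × Part => p.2.1) := PTime.fst pt_snd
    have h3 : PTime (fun p : List Good × Part × Part => p.2.2) := PTime.snd pt_snd
    refine PTime.foldl (γ := List Good × Part × Part) (α := Good)
      (β := List Good × Part × Part) (l := fun p => p.1)
      (i := fun p => (p.1, p.2.1, upd p.2.2 (dump p.2.1 p.1))) (s := fun _ s _ => tstep a s) h1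
      (PTime.pair h1 (PTime.pair h2 (pt_upd h3 (pt_dump_pr h2 h1)))) ?_
      (2 * Polynomial.X + 2) ?_
    · exact PTime.comp (pc_tstep a) (PTime.fst pt_snd)
    · intro p l' _
      have hI := pc_fold a _ _ (le_max_right _ _) l' _ (pc_init p.1 p.2.1 p.2.2)
      set s := l'.foldl (fun s (_ : Good) => tstep a s)
        (p.1, p.2.1, upd p.2.2 (dump p.2.1 p.1)) with hs
      obtain ⟨h4, h5⟩ := hI
      have h6 : sz s = sz s.1 + (sz s.2.1 + sz s.2.2 + 1) + 1 := rfl
      have h7 : sz p = sz p.1 + (sz p.2.1 + sz p.2.2 + 1) + 1 := rfl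
      simp only [Polynomial.eval_add, Polynomial.eval_mul, Polynomial.eval_X,
        Polynomial.eval_ofNat]
      change sz s ≤ _
      have h8 : max (sz p.2.2) (sz p.2.1 + sz p.1) ≤ sz p :=
        max_le (by omega) (by omega)
      omega
  exact PTime.snd (PTime.snd h)

theorem pt_tryP_pr (a : Fin 3) {N : γ → List Good} {P acc : γ → Part} (hN : PTime N)
    (hP : PTime P) (hacc : PTime acc) : PTime (fun c => tryP a (N c) (P c) (acc c)) :=
  PTime.comp (g := fun p : List Good × Part × Part => tryP a p.1 p.2.1 p.2.2)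
    (f := fun c => (N c, P c, acc c)) (pc_tryP0 a) (PTime.pair hN (PTime.pair hP hacc))

end Pool.Agent.EFD
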