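import Pool.Agent.Lib_helper2.EFD.W.PB
import Pool.Agent.Lib_helper2.EFD.W.PC

/-! Block PD: one stage is polynomial time. -/

namespace Pool.Agent.EFD
open Pool.Agent.PTm Pool.Agent.EFX3

variable {γ : Type} [ToD γ]

/-- sizes along the inner fold -/
theorem pd_sz (a : Fin 3) (N : List Good) (M : ℕ) (L : List Part) (acc : Part)
    (hL : ∀ P ∈ L, sz P + sz N ≤ M) (hacc : sz acc ≤ M) :
    sz (L.foldl (fun A P => tryP a N P A) acc) ≤ M := by
  induction L generalizing acc with
  | nil => exact hacc
  | cons P L ih =>
    rw [List.foldl_cons]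
    refine ih _ (fun Q hQ => hL Q (List.mem_cons_of_mem _ hQ)) ?_
    exact (sz_tryP a N P acc).trans (max_le hacc (hL P List.mem_cons_self))

/-- the inner fold -/
theorem pd_inner (a : Fin 3) : PTime (fun s : List Good × List Part × Part =>
    s.2.1.foldl (fun acc P => tryP a s.1 P acc) s.2.2) := by
  refine PTime.foldl (γ := List Good × List Part × Part) (α := Part) (β := Part)
    (l := fun s => s.2.1) (i := fun s => s.2.2) (s := fun s acc P => tryP a s.1 P acc)
    (PTime.fst pt_snd) (PTime.snd pt_snd) ?_ (2 * Polynomial.X) ?_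
  · have h1 : PTime (fun p : (List Good × List Part × Part) × Part × Part => p.1.1) :=
      PTime.fst pt_fst
    have h2 : PTime (fun p : (List Good × List Part × Part) × Part × Part => p.2.2) :=
      PTime.snd pt_snd
    have h3 : PTime (fun p : (List Good × List Part × Part) × Part × Part => p.2.1) :=
      PTime.fst pt_snd
    exact pt_tryP a h1 h2 h3
  · intro s l' hl'
    have hs : sz s = sz s.1 + (sz s.2.1 + sz s.2.2 + 1) + 1 := rfl
    simp only [Polynomial.eval_mul, Polynomial.eval_X, Polynomial.eval_ofNat]
    refine pd_sz a s.1 _ l' s.2.2 (fun P hP => ?_) ?_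
    · have h1 := sz_le_of_mem (hl'.subset hP)
      omega
    · omega

theorem pd_stage0 (a : Fin 3) :
    PTime (fun p : (Fin 3 → List Unit) × List Good × List Part × Part => stage a p.1 p.2) := by
  refine PTime.lcase (γ := (Fin 3 → List Unit) × List Good × List Part × Part) (α := Good)
    (β := List Good × List Part × Part) (l := fun p => p.2.1) (n := fun p => p.2)
    (c := fun p g N => (N, expand p.1 g p.2.2.1,
      p.2.2.1.foldl (fun acc P => tryP a p.2.1 P acc) p.2.2.2)) (PTime.fst pt_snd) pt_snd ?_
  have h0 : PTime (fun q : ((Fin 3 → List Unit) × List Good × List Part × Part) × Good ×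
      List Good => q.1.2) := PTime.snd pt_fst
  have hK : PTime (fun q : ((Fin 3 → List Unit) × List Good × List Part × Part) × Good ×
      List Good => q.1.1) := PTime.fst pt_fst
  have hg : PTime (fun q : ((Fin 3 → List Unit) × List Good × List Part × Part) × Good ×
      List Good => q.2.1) := PTime.fst pt_snd
  have hN : PTime (fun q : ((Fin 3 → List Unit) × List Good × List Part × Part) × Good ×
      List Good => q.2.2) := PTime.snd pt_snd
  exact PTime.pair hN (PTime.pair (pt_expand hK hg (PTime.fst (PTime.snd h0)))
    (PTime.comp (pd_inner a) h0))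

theorem pt_stage_pr (a : Fin 3) {K : γ → Fin 3 → List Unit}
    {s : γ → List Good × List Part × Part} (hK : PTime K) (hs : PTime s) :
    PTime (fun c => stage a (K c) (s c)) :=
  PTime.comp (pd_stage0 a) (PTime.pair hK hs)

end Pool.Agent.EFD
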